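import Pool.Agent.Helper41.LD.Defs
import Pool.Agent.Helper44.TX.DKM

/-!
# Block KR of LD: the arithmetic condition gives equidistribution
-/

set_option autoImplicit false

namespace Pool.Agent.Helper23.LD

open Set MeasureTheory Filter Topology Pool.Agent.Helper41.LD
open Finset (range)

variable {θ : ℝ}

/-- sums of floors along a rational rotation -/
theorem floor_sum (r : ℚ) : ∃ c₀ : ℝ, ∀ z : ℝ,
    |∑ m ∈ range r.den, (⌊z + r * m⌋ : ℝ) - (r.den * z + c₀)| ≤ 1 := by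
  have hs : H44TX.IsLift (fun t : ℝ => (⌊t⌋ : ℝ)) :=
    ⟨fun s t hst => by
      have : ⌊s⌋ ≤ ⌊t⌋ := Int.floor_le_floor hst
      exact_mod_cast this, fun t => by
      simp only [Int.floor_add_one]
      push_cast; ring⟩
  refine ⟨∑ m ∈ range r.den, (r : ℝ) * m + r.den * ∫ t in (0 : ℝ)..1, ((⌊t⌋ : ℝ) - t), fun z => ?_⟩
  have h3 := H44TX.sum_coprime (fun t => (⌊t⌋ : ℝ) - t) hs.periodic r.num r.den r.pos r.reduced z
  have h4 : (r : ℝ) = r.num / r.den := Rat.cast_def r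
  rw [← h4] at h3
  have h5 := H44TX.lift_translates hs r.den r.pos z
  rw [← h3, Finset.sum_sub_distrib, Finset.sum_add_distrib, Finset.sum_const, Finset.card_range,
    nsmul_eq_mul] at h5
  have e : ∑ m ∈ range r.den, (⌊z + r * m⌋ : ℝ)
      - (r.den * z + (∑ m ∈ range r.den, (r : ℝ) * m + r.den * ∫ t in (0 : ℝ)..1, ((⌊t⌋ : ℝ) - t)))
      = ∑ m ∈ range r.den, (⌊z + r * m⌋ : ℝ) - (r.den * z + ∑ m ∈ range r.den, (r : ℝ) * m)
        - r.den * ∫ t in (0 : ℝ)..1, ((⌊t⌋ : ℝ) - t) := by ring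
  rw [e]
  exact h5

/-- one block of a rotation close to a rational one -/
theorem block (α : ℝ) (r : ℚ) {X : ℕ} (hX : r.den ≤ X) (hr : |α - r| ≤ 1 / ((X + 1) * r.den))
    (y a b : ℝ) :
    |∑ m ∈ range r.den, ((⌊y + α * m - a⌋ : ℝ) - ⌊y + α * m - b⌋) - r.den * (b - a)| ≤ 4 := by
  have hq0 : (0 : ℝ) < r.den := by exact_mod_cast r.pos
  have hX0 : (r.den : ℝ) ≤ X := by exact_mod_cast hX
  obtain ⟨c₀, hc⟩ := floor_sum r
  have hclose : ∀ m ∈ range r.den, |α * m - r * m| ≤ 1 / r.den := by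
    intro m hm
    have hm' : (m : ℝ) ≤ r.den := by exact_mod_cast (Finset.mem_range.1 hm).le
    rw [← sub_mul, abs_mul, abs_of_nonneg (Nat.cast_nonneg m : (0 : ℝ) ≤ m)]
    have h1 : |α - r| * m ≤ 1 / ((X + 1) * r.den) * r.den :=
      mul_le_mul hr hm' (by positivity) (by positivity)
    have h2 : 1 / (((X : ℝ) + 1) * r.den) * r.den = 1 / (X + 1) := by field_simp
    rw [h2] at h1
    refine h1.trans (one_div_le_one_div_of_le hq0 (by linarith))
  have hup : ∀ d : ℝ, ∑ m ∈ range r.den, (⌊y + α * m - d⌋ : ℝ) ≤ r.den * (y - d) + c₀ + 2 := by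
    intro d
    have h1 : ∑ m ∈ range r.den, (⌊y + α * m - d⌋ : ℝ)
        ≤ ∑ m ∈ range r.den, (⌊(y + 1 / r.den - d) + r * m⌋ : ℝ) := by
      apply Finset.sum_le_sum
      intro m hm
      have h2 := (abs_le.1 (hclose m hm)).2
      have h3 : ⌊y + α * m - d⌋ ≤ ⌊(y + 1 / (r.den : ℝ) - d) + r * m⌋ :=
        Int.floor_le_floor (by linarith)
      exact_mod_cast h3
    have h4 := (abs_le.1 (hc (y + 1 / r.den - d))).2
    have h5 : (r.den : ℝ) * (y + 1 / r.den - d) = r.den * (y - d) + 1 := by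
      field_simp
      ring
    linarith
  have hlo : ∀ d : ℝ, r.den * (y - d) + c₀ - 2 ≤ ∑ m ∈ range r.den, (⌊y + α * m - d⌋ : ℝ) := by
    intro d
    have h1 : ∑ m ∈ range r.den, (⌊(y - 1 / r.den - d) + r * m⌋ : ℝ)
        ≤ ∑ m ∈ range r.den, (⌊y + α * m - d⌋ : ℝ) := by
      apply Finset.sum_le_sum
      intro m hm
      have h2 := (abs_le.1 (hclose m hm)).1
      have h3 : ⌊(y - 1 / (r.den : ℝ) - d) + r * m⌋ ≤ ⌊y + α * m - d⌋ :=
        Int.floor_le_floor (by linarith)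
      exact_mod_cast h3
    have h4 := (abs_le.1 (hc (y - 1 / r.den - d))).1
    have h5 : (r.den : ℝ) * (y - 1 / r.den - d) = r.den * (y - d) - 1 := by
      field_simp
      ring
    linarith
  rw [Finset.sum_sub_distrib, abs_le]
  have a1 := hup a
  have a2 := hlo a
  have a3 := hup b
  have a4 := hlo b
  constructor <;> linarith

/-- the indicator of an arc as a difference of floors -/
theorem ind_floor {a b : ℝ} (ha : 0 ≤ a) (hab : a ≤ b) (hb : b ≤ 1) (z : ℝ) :
    (if a ≤ Int.fract z ∧ Int.fract z < b then (1 : ℝ) else 0) = (⌊z - a⌋ : ℝ) - ⌊z - b⌋ := by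
  have h0 := Int.fract_nonneg z
  have h1 := Int.fract_lt_one z
  have hz : z = ⌊z⌋ + Int.fract z := (Int.floor_add_fract z).symm
  have hge : ∀ d : ℝ, 0 ≤ d → d ≤ 1 → d ≤ Int.fract z → ⌊z - d⌋ = ⌊z⌋ := by
    intro d hd0 hd1 hd
    rw [Int.floor_eq_iff]
    constructor <;> linarith
  have hlt : ∀ d : ℝ, 0 ≤ d → d ≤ 1 → Int.fract z < d → ⌊z - d⌋ = ⌊z⌋ - 1 := by
    intro d hd0 hd1 hd
    rw [Int.floor_eq_iff]
    push_cast
    constructor <;> linarith
  by_cases h2 : a ≤ Int.fract z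
  · by_cases h3 : Int.fract z < b
    · rw [if_pos ⟨h2, h3⟩, hge a ha (hab.trans hb) h2, hlt b (ha.trans hab) hb h3]
      push_cast; ring
    · rw [if_neg (fun h => h3 h.2), hge a ha (hab.trans hb) h2,
        hge b (ha.trans hab) hb (not_lt.1 h3)]
      ring
  · have h4 : Int.fract z < a := not_le.1 h2
    rw [if_neg (fun h => h2 h.1), hlt a ha (hab.trans hb) h4,
      hlt b (ha.trans hab) hb (lt_of_lt_of_le h4 hab)]
    ring

/-- Kronecker: no good rational approximation with a small denominator -/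
theorem kron {α : ℝ} {H X : ℕ} (hH : 1 ≤ H) (hX : 1 ≤ X)
    (h : ∀ q : ℕ, 1 ≤ q → q ≤ H → ∀ p : ℤ, 1 / ((X : ℝ) + 1) < |q * α - p|) (Q : ℕ) (x : ℝ) {a b : ℝ} (ha : 0 ≤ a) (hab : a ≤ b) (hb : b ≤ 1) :
    |(((Finset.range Q).filter fun k : ℕ => a ≤ Int.fract (k * α + x) ∧ Int.fract (k * α + x) < b).card : ℝ) - Q * (b - a)| ≤
      4 * (Q / H) + X := by
  obtain ⟨r, hr, hrX⟩ := Real.exists_rat_abs_sub_le_and_den_le α (n := X) (by omega)
  have hq0 : (0 : ℝ) < r.den := by exact_mod_cast r.pos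
  have hH0 : (0 : ℝ) < H := by exact_mod_cast hH
  have hX0 : (0 : ℝ) < (X : ℝ) + 1 := by positivity
  -- the denominator is large
  have hden : H < r.den := by
    by_contra hcon
    have h1 := h r.den r.pos (not_lt.1 hcon) r.num
    have h2 : (r.den : ℝ) * α - r.num = r.den * (α - r) := by
      have : (r : ℝ) = r.num / r.den := Rat.cast_def r
      rw [this]; field_simp
    rw [h2, abs_mul, abs_of_pos hq0] at h1
    have h3 : (r.den : ℝ) * |α - r| ≤ r.den * (1 / ((X + 1) * r.den)) :=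
      mul_le_mul_of_nonneg_left hr hq0.le
    have h4 : (r.den : ℝ) * (1 / (((X : ℝ) + 1) * r.den)) = 1 / (X + 1) := by field_simp
    linarith
  let f : ℕ → ℝ := fun k => if a ≤ Int.fract (k * α + x) ∧ Int.fract (k * α + x) < b then 1 else 0
  have hcard : ((((Finset.range Q).filter fun k : ℕ => a ≤ Int.fract (k * α + x) ∧
      Int.fract (k * α + x) < b).card : ℕ) : ℝ) = ∑ k ∈ range Q, f k := by
    rw [Finset.card_filter]
    push_cast
    rfl
  rw [hcard]
  have hf : ∀ k, f k = (⌊k * α + x - a⌋ : ℝ) - ⌊k * α + x - b⌋ := fun k => ind_floor ha hab hb _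
  have hf01 : ∀ k, 0 ≤ f k ∧ f k ≤ 1 := by
    intro k
    simp only [f]
    split_ifs <;> norm_num
  have hblocks : ∀ n : ℕ, |∑ k ∈ range (r.den * n), f k - (r.den * n) * (b - a)| ≤ 4 * n := by
    intro n
    induction n with
    | zero => simp
    | succ n ih =>
      have e1 : r.den * (n + 1) = r.den * n + r.den := by ring
      rw [e1, Finset.sum_range_add]
      have h5 := block α r hrX hr (((r.den * n : ℕ) : ℝ) * α + x) a b
      have e2 : ∑ m ∈ range r.den, f (r.den * n + m)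
          = ∑ m ∈ range r.den, ((⌊((r.den * n : ℕ) : ℝ) * α + x + α * m - a⌋ : ℝ)
            - ⌊((r.den * n : ℕ) : ℝ) * α + x + α * m - b⌋) := by
        apply Finset.sum_congr rfl
        intro m _
        rw [hf]
        have e3 : ((r.den * n + m : ℕ) : ℝ) * α + x = ((r.den * n : ℕ) : ℝ) * α + x + α * m := by
          push_cast; ring
        rw [e3]
      rw [← e2] at h5
      have e4 : ∑ k ∈ range (r.den * n), f k + ∑ m ∈ range r.den, f (r.den * n + m)
          - (r.den * ((n + 1 : ℕ) : ℝ)) * (b - a)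
          = (∑ k ∈ range (r.den * n), f k - (r.den * n) * (b - a))
            + (∑ m ∈ range r.den, f (r.den * n + m) - r.den * (b - a)) := by
        push_cast; ring
      rw [e4]
      refine (abs_add_le _ _).trans ((add_le_add ih h5).trans (le_of_eq ?_))
      push_cast; ring
  set n := Q / r.den with hn
  set s := Q % r.den with hs
  have hQ : Q = r.den * n + s := (Nat.div_add_mod Q r.den).symm
  have hsq : s < r.den := Nat.mod_lt _ r.pos
  have hQ' : (Q : ℝ) = r.den * n + s := by exact_mod_cast hQ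
  have hrest : |∑ m ∈ range s, f (r.den * n + m) - s * (b - a)| ≤ s := by
    have h1 : 0 ≤ ∑ m ∈ range s, f (r.den * n + m) := Finset.sum_nonneg fun m _ => (hf01 _).1
    have h2 : ∑ m ∈ range s, f (r.den * n + m) ≤ s := by
      refine (Finset.sum_le_sum fun m _ => (hf01 (r.den * n + m)).2).trans ?_
      simp
    have h3 : 0 ≤ (s : ℝ) * (b - a) := mul_nonneg (by positivity) (by linarith)
    have h4 : (s : ℝ) * (b - a) ≤ s * 1 := mul_le_mul_of_nonneg_left (by linarith) (by positivity)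
    rw [abs_le]
    constructor <;> linarith
  have hsum : ∑ k ∈ range Q, f k = ∑ k ∈ range (r.den * n), f k
      + ∑ m ∈ range s, f (r.den * n + m) := by
    conv_lhs => rw [hQ]
    rw [Finset.sum_range_add]
  have e5 : ∑ k ∈ range Q, f k - Q * (b - a)
      = (∑ k ∈ range (r.den * n), f k - (r.den * n) * (b - a))
        + (∑ m ∈ range s, f (r.den * n + m) - s * (b - a)) := by
    rw [hsum, hQ']; ring
  rw [e5]
  refine (abs_add_le _ _).trans (add_le_add ((hblocks n).trans ?_) (hrest.trans ?_))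
  · have h6 : (n : ℝ) ≤ Q / H := by
      rw [le_div_iff₀ hH0]
      have h7 : (H : ℝ) ≤ r.den := by exact_mod_cast hden.le
      have h8 : (n : ℝ) * H ≤ n * r.den := mul_le_mul_of_nonneg_left h7 (by positivity)
      have h9 : (0 : ℝ) ≤ s := by positivity
      rw [hQ']
      linarith
    linarith
  · have : s ≤ X := hsq.le.trans hrX
    exact_mod_cast this

theorem equi_of_dioph (hθ : 1 < θ) {κ : ℕ} (hκ : 1 ≤ κ) (h : Dioph θ κ) (R : ℕ) : ∃ C : ℝ, 0 < C ∧ ∀ K : ℕ, 1 ≤ K →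
    ∃ (Q₀ : ℕ) (ε : ℝ), (Q₀ : ℝ) + 1 ≤ Real.exp (C * (K : ℝ) ^ κ) ∧ 0 ≤ ε ∧ ε ≤ (1 / 2) ^ (12 * K) ∧ Equi θ (R * K) Q₀ ε := by
  obtain ⟨C₁, hC₁, hd⟩ := h
  refine ⟨C₁ * ((R : ℝ) + 15) ^ κ + 17, by positivity, ?_⟩
  intro K hK
  have hK1 : (1 : ℝ) ≤ K := by exact_mod_cast hK
  set H : ℕ := 2 ^ (12 * K + 3) with hH
  have hH1 : 1 ≤ H := Nat.one_le_two_pow
  have hH0 : (0 : ℝ) < H := by exact_mod_cast hH1
  have hlogH : Real.log H ≤ 15 * K := by
    rw [hH]
    push_cast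
    rw [Real.log_pow]
    have h1 : Real.log 2 ≤ 1 := by
      have := Real.log_two_lt_d9
      linarith
    have h2 : (((12 * K + 3 : ℕ) : ℝ)) * Real.log 2 ≤ ((12 * K + 3 : ℕ) : ℝ) * 1 :=
      mul_le_mul_of_nonneg_left h1 (by positivity)
    push_cast at h2 ⊢
    linarith
  set E : ℝ := C₁ * (((R * K : ℕ) : ℝ) + Real.log H) ^ κ with hE
  have hlogH0 : 0 ≤ Real.log H := Real.log_nonneg (by exact_mod_cast hH1)
  have hE0 : 0 ≤ E := by positivity
  set X : ℕ := ⌈Real.exp E⌉₊ with hXd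
  have hX1 : 1 ≤ X := Nat.one_le_ceil_iff.2 (Real.exp_pos _)
  have hXl : Real.exp E ≤ X := Nat.le_ceil _
  have hXu : (X : ℝ) ≤ 2 * Real.exp E := by
    have h1 := (Nat.ceil_lt_add_one (Real.exp_pos E).le).le
    have h2 := Real.one_le_exp hE0
    linarith
  refine ⟨X * H, 5 / H, ?_, by positivity, ?_, ?_⟩
  · have hKκ : (K : ℝ) ≤ (K : ℝ) ^ κ := by
      calc (K : ℝ) = (K : ℝ) ^ 1 := (pow_one _).symm
        _ ≤ (K : ℝ) ^ κ := pow_le_pow_right₀ hK1 hκ
    have hKκ1 : (1 : ℝ) ≤ (K : ℝ) ^ κ := hK1.trans hKκ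
    have hE1 : E ≤ C₁ * ((R : ℝ) + 15) ^ κ * (K : ℝ) ^ κ := by
      rw [hE, mul_assoc, ← mul_pow]
      apply mul_le_mul_of_nonneg_left _ hC₁.le
      apply pow_le_pow_left₀ (by positivity)
      push_cast
      linarith
    have hHe : (H : ℝ) ≤ Real.exp (15 * K) := by
      rw [← Real.exp_log hH0]
      exact Real.exp_le_exp.2 hlogH
    have hHe2 : Real.exp (15 * K) ≤ Real.exp (15 * (K : ℝ) ^ κ) :=
      Real.exp_le_exp.2 (by linarith)
    have h4 : (4 : ℝ) ≤ Real.exp 2 := by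
      have h5 : Real.exp 2 = Real.exp 1 * Real.exp 1 := by rw [← Real.exp_add]; norm_num
      have h6 := Real.exp_one_gt_d9
      rw [h5]
      nlinarith
    have h7 : Real.exp 2 ≤ Real.exp (2 * (K : ℝ) ^ κ) := Real.exp_le_exp.2 (by linarith)
    have h8 : ((X * H : ℕ) : ℝ) + 1 ≤ 2 * (X * H) := by
      have : (1 : ℝ) ≤ X * H := by exact_mod_cast Nat.mul_pos hX1 hH1
      push_cast
      linarith
    refine h8.trans ?_
    have h9 : (X : ℝ) * H ≤ (2 * Real.exp E) * Real.exp (15 * (K : ℝ) ^ κ) :=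
      mul_le_mul hXu (hHe.trans hHe2) hH0.le (by positivity)
    have h10 : 2 * ((2 * Real.exp E) * Real.exp (15 * (K : ℝ) ^ κ))
        ≤ Real.exp (2 * (K : ℝ) ^ κ) * (Real.exp E * Real.exp (15 * (K : ℝ) ^ κ)) := by
      have : 0 ≤ Real.exp E * Real.exp (15 * (K : ℝ) ^ κ) := by positivity
      nlinarith
    have h11 : Real.exp (2 * (K : ℝ) ^ κ) * (Real.exp E * Real.exp (15 * (K : ℝ) ^ κ))
        ≤ Real.exp ((C₁ * ((R : ℝ) + 15) ^ κ + 17) * (K : ℝ) ^ κ) := by
      rw [← Real.exp_add, ← Real.exp_add]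
      apply Real.exp_le_exp.2
      linarith
    linarith
  · rw [div_le_iff₀ hH0, hH]
    push_cast
    rw [pow_add, ← mul_assoc, ← mul_pow]
    norm_num
  · intro d hd1 hdr Q hQ x a b ha hab hb
    have hk := kron (α := θ ^ d) hH1 hX1 (by
      intro q hq1 hqH p
      refine lt_of_lt_of_le ?_ (hd d q hd1 hq1 p)
      have h1 : Real.exp (-(E)) ≤ Real.exp (-(C₁ * ((d : ℝ) + Real.log q) ^ κ)) := by
        apply Real.exp_le_exp.2
        rw [neg_le_neg_iff, hE]
        apply mul_le_mul_of_nonneg_left _ hC₁.le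
        have hq0 : (1 : ℝ) ≤ q := by exact_mod_cast hq1
        have h2 : Real.log q ≤ Real.log H :=
          Real.log_le_log (by linarith) (by exact_mod_cast hqH)
        have h3 : (d : ℝ) ≤ ((R * K : ℕ) : ℝ) := by exact_mod_cast hdr
        have h4 : 0 ≤ Real.log q := Real.log_nonneg hq0
        exact pow_le_pow_left₀ (by positivity) (by linarith) _
      refine lt_of_lt_of_le ?_ h1
      rw [Real.exp_neg, ← one_div]
      exact one_div_lt_one_div_of_lt (Real.exp_pos _) (by linarith)) Q x ha hab hb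
    refine hk.trans ?_
    have h5 : (X : ℝ) ≤ Q / H := by
      rw [le_div_iff₀ hH0]
      exact_mod_cast hQ
    have h6 : 5 / (H : ℝ) * Q = 4 * (Q / H) + Q / H := by ring
    rw [h6]
    linarith

end Pool.Agent.Helper23.LD
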